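import Pool.Agent.helper47.CL.SpecD

/-!
# Project CL, row MC (helper51): the Moon-Moser inequality and its consequence
-/

set_option autoImplicit false

namespace Pool.Agent.helper41.CL

open Finset

private theorem MC_small {α : Type} [DecidableEq α] (V : Finset α) (E : Finset (Finset α)) (hG : Gr V E) (k : ℕ)
    (hk : k ≤ 1) : #(ind V E k) = (#V).choose k := by
  have h0 : ind V E k = V.powersetCard k := by
    unfold ind
    rw [filter_true_of_mem]
    intro I hI e he heI
    have h1 := (hG e he).2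
    have h2 := card_le_card heI
    rw [(mem_powersetCard.1 hI).2, h1] at h2
    omega
  rw [h0, card_powersetCard]

private theorem MC_two {α : Type} [DecidableEq α] (V : Finset α) (E : Finset (Finset α)) (hG : Gr V E) :
    (#V).choose 2 ≤ #(ind V E 2) + #E := by
  rw [← card_powersetCard]
  refine (card_le_card ?_).trans (card_union_le (ind V E 2) E)
  intro I hI
  rw [mem_union]
  by_cases h : ∀ e ∈ E, ¬ e ⊆ I
  · left
    unfold ind
    exact (@mem_filter _ _ (_) _ _).2 ⟨hI, h⟩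
  · right
    push Not at h
    obtain ⟨e, he, heI⟩ := h
    have h1 : e = I := eq_of_subset_of_card_le heI (by rw [(mem_powersetCard.1 hI).2, (hG e he).2])
    rw [← h1]
    exact he

private theorem MC_cs {α : Type} [DecidableEq α] (h1 : MA_stmt) (h2 : MB_stmt) (V : Finset α) (E : Finset (Finset α))
    (hG : Gr V E) (s : ℕ) : (((s : ℤ) + 1) * #(ind V E (s + 1))) ^ 2 ≤
      #(ind V E s) * ((#V : ℤ) * #(ind V E (s + 1)) + s * (s + 2) * #(ind V E (s + 2))) := by
  have h3 := h1 α V E s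
  have h4 := h2 α V E s hG
  have h5 : (∑ J ∈ ind V E s, (#(ext V E J) : ℤ)) ^ 2 ≤ #(ind V E s) * ∑ J ∈ ind V E s, (#(ext V E J) : ℤ) ^ 2 :=
    sq_sum_le_card_mul_sum_sq
  have h6 : (∑ J ∈ ind V E s, (#(ext V E J) : ℤ)) = ((s : ℤ) + 1) * #(ind V E (s + 1)) := by exact_mod_cast h3
  have h7 : ∑ J ∈ ind V E s, (#(ext V E J) : ℤ) ^ 2 ≤ (#V : ℤ) * #(ind V E (s + 1)) + s * (s + 2) * #(ind V E (s + 2)) := by
    exact_mod_cast h4
  rw [h6] at h5
  exact h5.trans (mul_le_mul_of_nonneg_left h7 (by positivity))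

private theorem MC_step (i : ℕ → ℕ) (Q : ℕ) (h0 : i 0 = 1) (h1 : i 1 = 3 * Q) (h2 : (3 * Q).choose 2 ≤ i 2 + 3 * Q)
    (hcs : ∀ s : ℕ, (((s : ℤ) + 1) * i (s + 1)) ^ 2 ≤ i s * (((3 * Q : ℕ) : ℤ) * i (s + 1) + s * (s + 2) * i (s + 2))) :
    ∀ s : ℕ, s < Q → 0 < i s ∧ (3 * (Q : ℤ) - 3 * s) * i s ≤ (s + 1) * i (s + 1) := by
  intro s
  induction s with
  | zero =>
    intro _
    refine ⟨by rw [h0]; exact Nat.one_pos, ?_⟩
    rw [h0, zero_add, h1]
    push_cast
    linarith
  | succ s ih =>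
    intro hs
    obtain ⟨h3, h4⟩ := ih (by omega)
    have hsQ : (s : ℤ) + 1 < Q := by exact_mod_cast hs
    have h5 : 0 < i (s + 1) := by
      by_contra hc
      have h6 : i (s + 1) = 0 := by omega
      rw [h6] at h4
      have h7 : (0 : ℤ) < i s := by exact_mod_cast h3
      push_cast at h4
      nlinarith
    refine ⟨h5, ?_⟩
    have h5' : (0 : ℤ) < i (s + 1) := by exact_mod_cast h5
    rcases Nat.eq_zero_or_pos s with hs0 | hs0
    · subst hs0
      have h6 := Nat.choose_succ_right_eq (3 * Q) 1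
      rw [Nat.choose_one_right] at h6
      have h7 : (3 * Q).choose 2 * 2 = 3 * Q * (3 * Q - 1) := h6
      have h8 : ((3 * Q - 1 : ℕ) : ℤ) = 3 * (Q : ℤ) - 1 := by
        have : 1 ≤ 3 * Q := by omega
        push_cast [Nat.cast_sub this]
        ring
      have h9 : (((3 * Q).choose 2 : ℕ) : ℤ) * 2 = 3 * (Q : ℤ) * (3 * (Q : ℤ) - 1) := by
        rw [← h8]
        exact_mod_cast h7
      have h10 : (((3 * Q).choose 2 : ℕ) : ℤ) ≤ i 2 + 3 * Q := by exact_mod_cast h2
      have h11 : ((i (0 + 1) : ℕ) : ℤ) = 3 * Q := by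
        rw [zero_add, h1]
        push_cast
        ring
      have h12 : ((i (0 + 1 + 1) : ℕ) : ℤ) = i 2 := rfl
      rw [h11, h12]
      push_cast
      nlinarith
    · have hs1 : (0 : ℤ) < s := by exact_mod_cast hs0
      have h6 := hcs s
      push_cast at h6
      have h7 : (0 : ℤ) < 3 * (Q : ℤ) - 3 * s := by linarith
      have h8 : (3 * (Q : ℤ) - 3 * s) * (((s : ℤ) + 1) * i (s + 1)) ^ 2 ≤
          (((s : ℤ) + 1) * i (s + 1)) * (3 * (Q : ℤ) * i (s + 1) + s * (s + 2) * i (s + 2)) := by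
        calc (3 * (Q : ℤ) - 3 * s) * (((s : ℤ) + 1) * i (s + 1)) ^ 2
            ≤ (3 * (Q : ℤ) - 3 * s) * (i s * (3 * (Q : ℤ) * i (s + 1) + s * (s + 2) * i (s + 2))) :=
              mul_le_mul_of_nonneg_left h6 h7.le
          _ = ((3 * (Q : ℤ) - 3 * s) * i s) * (3 * (Q : ℤ) * i (s + 1) + s * (s + 2) * i (s + 2)) := by ring
          _ ≤ _ := mul_le_mul_of_nonneg_right h4 (by positivity)
      have h9 : (0 : ℤ) < ((s : ℤ) + 1) * i (s + 1) := by positivity
      have h10 : (3 * (Q : ℤ) - 3 * s) * (((s : ℤ) + 1) * i (s + 1)) ≤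
          3 * (Q : ℤ) * i (s + 1) + s * (s + 2) * i (s + 2) := by
        refine le_of_mul_le_mul_left ?_ h9
        calc _ = (3 * (Q : ℤ) - 3 * s) * (((s : ℤ) + 1) * i (s + 1)) ^ 2 := by ring
          _ ≤ _ := h8
      have h11 : (s : ℤ) * ((3 * (Q : ℤ) - 3 * (s + 1)) * i (s + 1)) ≤ s * ((s + 2) * i (s + 2)) := by
        nlinarith
      have h12 := le_of_mul_le_mul_left h11 hs1
      have h13 : ((i (s + 1 + 1) : ℕ) : ℤ) = i (s + 2) := rfl
      rw [h13]
      push_cast
      linarith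

theorem MC (h1 : MA_stmt) (h2 : MB_stmt) : MC_stmt := by
  intro α _ V E Q hG hV hE
  have key := MC_step (fun s => #(ind V E s)) Q
    (by
      show #(ind V E 0) = 1
      rw [MC_small V E hG 0 (by omega), Nat.choose_zero_right])
    (by
      show #(ind V E 1) = 3 * Q
      rw [MC_small V E hG 1 le_rfl, Nat.choose_one_right, hV])
    (by
      show (3 * Q).choose 2 ≤ #(ind V E 2) + 3 * Q
      have h3 := MC_two V E hG
      rw [hV] at h3
      omega)
    (by
      intro s
      have h3 := MC_cs h1 h2 V E hG s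
      rw [hV] at h3
      exact h3)
  have hall : ∀ s : ℕ, s ≤ Q → 3 ^ s * Q.choose s ≤ #(ind V E s) := by
    intro s
    induction s with
    | zero =>
      intro _
      rw [MC_small V E hG 0 (by omega), Nat.choose_zero_right, Nat.choose_zero_right, pow_zero, mul_one]
    | succ s ih =>
      intro hs
      have h3 := ih (by omega)
      obtain ⟨_, h4⟩ := key s (by omega)
      have h5 := Nat.choose_succ_right_eq Q s
      have h6 : (s + 1) * (3 ^ (s + 1) * Q.choose (s + 1)) = 3 * (Q - s) * (3 ^ s * Q.choose s) := by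
        calc (s + 1) * (3 ^ (s + 1) * Q.choose (s + 1)) = 3 ^ (s + 1) * (Q.choose (s + 1) * (s + 1)) := by ring
          _ = 3 ^ (s + 1) * (Q.choose s * (Q - s)) := by rw [h5]
          _ = 3 * (Q - s) * (3 ^ s * Q.choose s) := by ring
      have h7 : 3 * (Q - s) * #(ind V E s) ≤ (s + 1) * #(ind V E (s + 1)) := by
        have h8 : ((3 * (Q - s) * #(ind V E s) : ℕ) : ℤ) ≤ (((s + 1) * #(ind V E (s + 1)) : ℕ) : ℤ) := by
          have h9 : ((Q - s : ℕ) : ℤ) = (Q : ℤ) - s := by
            rw [Nat.cast_sub (by omega)]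
          rw [Nat.cast_mul, Nat.cast_mul, h9, Nat.cast_mul]
          push_cast
          calc (3 * ((Q : ℤ) - s)) * #(ind V E s) = (3 * (Q : ℤ) - 3 * s) * #(ind V E s) := by ring
            _ ≤ _ := h4
        exact_mod_cast h8
      have h10 : (s + 1) * (3 ^ (s + 1) * Q.choose (s + 1)) ≤ (s + 1) * #(ind V E (s + 1)) := by
        rw [h6]
        exact (Nat.mul_le_mul_left _ h3).trans h7
      exact Nat.le_of_mul_le_mul_left h10 (Nat.succ_pos s)
  have h3 := hall Q le_rfl
  rwa [Nat.choose_self, mul_one] at h3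

end Pool.Agent.helper41.CL
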