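import Pool.Agent.helper47.CL.SpecC

/-!
# Project CL, row YV (helper51): the case `n = 2 k`
-/

set_option autoImplicit false

namespace Pool.Agent.helper41.CL

open Finset

private theorem YV_gr {n : ℕ} (G : SimpleGraph (Fin n)) : Gr (univ : Finset (Fin n)) (NE G) := by
  intro e he
  unfold NE at he
  have h1 := (@mem_filter _ _ (_) _ _).1 he
  exact ⟨subset_univ _, (mem_powersetCard.1 h1.1).2⟩

theorem YV (h1 : YG_stmt) (h2 : WA_stmt) (h3 : WC_stmt) (h4 : YT_stmt) (h5 : YU_stmt) : YV_stmt := by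
  intro k G _ hk hE hs
  have hT : #(SimpleGraph.turanGraph (2 * k) (k - 1)).edgeFinset + (k + 3) = (2 * k).choose 2 := by
    obtain ⟨r, rfl⟩ : ∃ r, k = r + 1 := ⟨k - 1, by omega⟩
    exact h4 r (by omega)
  have hW := h2 (2 * k) G
  have hN : #(NE G) = k + 2 := by omega
  have hC := h3 (2 * k) k G (by omega)
  have hkk : 2 * k - k = k := by omega
  rw [hkk] at hC
  rw [h5 k hk, ← hC.1]
  exact h1 (Fin (2 * k)) univ (NE G) k (YV_gr G) hk hN (by rw [card_univ, Fintype.card_fin]) (hC.2 hs)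

end Pool.Agent.helper41.CL
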